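import Mathlib
import Pool.Agent.Helper5.GKK.Basic

/-!
A family of real matrices of order `n` with parameters `t`, `e`: the principal minors are `1` for
the sets that do not contain the first index and `t e^(k-1)` for the sets of size `k` that do.
-/

namespace Pool.Agent.Helper85.Arrow

open Matrix Finset
open scoped ComplexOrder

section det

variable {R : Type*} [CommRing R] {m : Type*} [Fintype m] [LinearOrder m]

theorem prod_special (o : m) (x y : R) (f : m → R) (ho : f o = x) (h : ∀ a, a ≠ o → f a = y) :
    ∏ a, f a = x * y ^ (Fintype.card m - 1) := by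
  rw [← Finset.mul_prod_erase univ f (mem_univ o), ho]
  congr 1
  rw [Finset.prod_congr rfl (g := fun _ => y) fun a ha => h a (Finset.ne_of_mem_erase ha)]
  simp [Finset.card_erase_of_mem]

/-- determinant of the matrix with first row `(t+z, -tr, …)`, first column `-1`, `r` below the
diagonal, `1 + z` on the diagonal and `0` above -/
theorem det_arrow (o : m) (ho : ∀ x, o ≤ x) (t z r : R) (M : Matrix m m R)
    (hM : ∀ a b, M a b = if a = b then (if a = o then t + z else 1 + z) else if a = o then -(t * r)
      else if b = o then -1 else if b < a then r else 0) :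
    M.det = z * (1 + z) ^ (Fintype.card m - 1) + t * (z + (1 - r)) ^ (Fintype.card m - 1) := by
  set v1 : m → R := fun b => if b = o then z else 0 with hv1
  set v2 : m → R := fun b => if b = o then 1 else -r with hv2
  have h0 : M = M.updateRow o (v1 + t • v2) := by
    ext a b
    by_cases ha : a = o
    · subst ha
      rw [updateRow_self, Pi.add_apply, Pi.smul_apply, hv1, hv2, hM]
      by_cases hb : b = a
      · subst hb; simp [add_comm]
      · simp [hb, Ne.symm hb]
    · rw [updateRow_ne ha]
  have h1 : (M.updateRow o v1).det = z * (1 + z) ^ (Fintype.card m - 1) := by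
    rw [det_of_isLowerTriangular]
    · apply prod_special o
      · rw [updateRow_self]; simp [hv1]
      · intro a ha
        rw [updateRow_ne ha, hM, if_pos rfl, if_neg ha]
    · intro a b hab
      have hab : a < b := by simpa using hab
      have hb : b ≠ o := fun h => absurd (ho a) (not_le.mpr (h ▸ hab))
      by_cases ha : a = o
      · subst ha
        rw [updateRow_self]; simp [hv1, hb]
      · rw [updateRow_ne ha, hM, if_neg hab.ne, if_neg ha, if_neg hb, if_neg hab.le.not_gt]
  have h2 : (M.updateRow o v2).det = (z + (1 - r)) ^ (Fintype.card m - 1) := by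
    set N : Matrix m m R := of fun a b => M.updateRow o v2 a b + (if a = o then 0 else 1) * v2 b
      with hN
    have hd : N.det = (M.updateRow o v2).det := by
      refine det_eq_of_forall_row_eq_smul_add_const (fun a => if a = o then 0 else 1) o (by simp)
        fun a b => ?_
      rw [hN, of_apply, updateRow_self]
    rw [← hd, det_of_isUpperTriangular]
    · rw [prod_special o 1 (z + (1 - r)), one_mul]
      · rw [hN, of_apply, updateRow_self]; simp [hv2]
      · intro a ha
        rw [hN, of_apply, updateRow_ne ha, hM, if_pos rfl, if_neg ha, if_neg ha]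
        simp only [hv2, if_neg ha]
        ring
    · intro a b hab
      have hab : b < a := by simpa using hab
      have ha : a ≠ o := fun h => absurd (ho b) (not_le.mpr (h ▸ hab))
      rw [hN, of_apply, updateRow_ne ha, hM, if_neg hab.ne', if_neg ha, if_neg ha]
      by_cases hb : b = o
      · rw [if_pos hb]; simp [hv2, hb]
      · rw [if_neg hb, if_pos hab]; simp [hv2, hb]
  rw [h0, det_updateRow_add, det_updateRow_smul, h1, h2]

theorem det_tri (z r : R) (M : Matrix m m R)
    (hM : ∀ a b, M a b = if a = b then 1 + z else if b < a then r else 0) :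
    M.det = (1 + z) ^ (Fintype.card m) := by
  rw [det_of_isLowerTriangular]
  · rw [Finset.prod_congr rfl (g := fun _ => 1 + z) fun a _ => by rw [hM, if_pos rfl]]
    simp
  · intro a b hab
    have hab : a < b := by simpa using hab
    rw [hM, if_neg hab.ne, if_neg hab.le.not_gt]

theorem det_arrow' (inst : DecidableEq m) (o : m) (ho : ∀ x, o ≤ x) (t z r : R) (M : Matrix m m R)
    (hM : ∀ a b, M a b = if a = b then (if a = o then t + z else 1 + z) else if a = o then -(t * r)
      else if b = o then -1 else if b < a then r else 0) :
    M.det = z * (1 + z) ^ (Fintype.card m - 1) + t * (z + (1 - r)) ^ (Fintype.card m - 1) := by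
  have hi : inst = LinearOrder.toDecidableEq := Subsingleton.elim _ _
  subst hi
  exact det_arrow o ho t z r M hM

theorem det_tri' (inst : DecidableEq m) (z r : R) (M : Matrix m m R)
    (hM : ∀ a b, M a b = if a = b then 1 + z else if b < a then r else 0) :
    M.det = (1 + z) ^ (Fintype.card m) := by
  have hi : inst = LinearOrder.toDecidableEq := Subsingleton.elim _ _
  subst hi
  exact det_tri z r M hM

end det

/-- the matrix of order `n`: first row `(t, -t(1-e), …)`, first column `(t, -1, …)`, `1` on the
rest of the diagonal, `1-e` elsewhere below the diagonal, `0` elsewhere above -/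
noncomputable def am (n : ℕ) (t e : ℝ) : Matrix (Fin n) (Fin n) ℝ :=
  of fun a b => if a = b then (if a.val = 0 then t else 1) else if a.val = 0 then -(t * (1 - e))
    else if b.val = 0 then -1 else if b < a then 1 - e else 0

/-- its complex version -/
noncomputable def amc (n : ℕ) (t e : ℝ) : Matrix (Fin n) (Fin n) ℂ :=
  (am n t e).map (fun x : ℝ => (x : ℂ))

variable {n : ℕ} {t e : ℝ}

theorem det_sub_mem {R : Type*} [CommRing R] (f : ℝ →+* R) (S : Finset (Fin n)) (z : R)
    (o : Fin n) (ho : o.val = 0) (hS : o ∈ S) :
    (((am n t e).map f).submatrix (Subtype.val : S → Fin n) Subtype.val + z • (1 : Matrix S S R)).det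
      = z * (1 + z) ^ (S.card - 1) + f t * (z + f e) ^ (S.card - 1) := by
  have h := det_arrow' (R := R) inferInstance (⟨o, hS⟩ : S)
    (fun x => Subtype.coe_le_coe.mp (Fin.le_def.mpr (by rw [ho]; exact Nat.zero_le _))) (f t) z
      (f (1 - e))
    (((am n t e).map f).submatrix (Subtype.val : S → Fin n) Subtype.val + z • (1 : Matrix S S R)) ?_
  · refine h.trans ?_
    rw [map_sub, map_one, Fintype.card_coe]
    congr 2
    ring
  · intro a b
    have hoa : ∀ a : S, a.val.val = 0 ↔ a = ⟨o, hS⟩ := by
      intro a
      rw [Subtype.ext_iff, Fin.ext_iff, ho]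
    rw [Matrix.add_apply, Matrix.smul_apply, submatrix_apply, map_apply, am, of_apply, one_apply]
    simp only [hoa, Subtype.coe_inj, Subtype.coe_lt_coe]
    by_cases hab : a = b
    · subst hab
      by_cases ha : a = ⟨o, hS⟩
      · simp [ha]
      · simp [ha]
    · rw [if_neg hab, if_neg hab, if_neg hab]
      split_ifs <;> simp

theorem det_sub_notMem {R : Type*} [CommRing R] (f : ℝ →+* R) (S : Finset (Fin n)) (z : R)
    (hS : ∀ x ∈ S, x.val ≠ 0) :
    (((am n t e).map f).submatrix (Subtype.val : S → Fin n) Subtype.val + z • (1 : Matrix S S R)).det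
      = (1 + z) ^ S.card := by
  have h := det_tri' (R := R) inferInstance z (f (1 - e))
    (((am n t e).map f).submatrix (Subtype.val : S → Fin n) Subtype.val + z • (1 : Matrix S S R)) ?_
  · refine h.trans ?_
    rw [Fintype.card_coe]
  · intro a b
    rw [Matrix.add_apply, Matrix.smul_apply, submatrix_apply, map_apply, am, of_apply, one_apply]
    rw [if_neg (hS a a.2), if_neg (hS a a.2), if_neg (hS b b.2)]
    simp only [Subtype.coe_inj, Subtype.coe_lt_coe]
    by_cases hab : a = b
    · simp [hab]
    · rw [if_neg hab, if_neg hab, if_neg hab]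
      split_ifs <;> simp

end Pool.Agent.Helper85.Arrow
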