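import Mathlib

/-!
Least real eigenvalue, tau-matrices, stability and the normalised sums of principal minors.
-/

namespace Pool.Agent.Helper85.Arrow

open Matrix Finset

/-- `l(B)`: the least real eigenvalue of `B`, `⊤` if `B` has no real eigenvalue. -/
noncomputable def lmin {m : Type*} [Fintype m] [DecidableEq m] (B : Matrix m m ℂ) : EReal :=
  sInf ((fun x : ℝ => (x : EReal)) '' {x : ℝ | (x : ℂ) ∈ spectrum ℂ B})

/-- the principal submatrix `A(α)` -/
def sub {n : ℕ} (A : Matrix (Fin n) (Fin n) ℂ) (α : Finset (Fin n)) : Matrix α α ℂ :=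
  A.submatrix Subtype.val Subtype.val

/-- `A` is a tau-matrix: `l(A(α)) ≤ l(A(β)) < ∞` whenever `∅ ≠ β ⊆ α`, and `l(A) ≥ 0`. -/
def IsTau {n : ℕ} (A : Matrix (Fin n) (Fin n) ℂ) : Prop :=
  (∀ α β : Finset (Fin n), β.Nonempty → β ⊆ α → lmin (sub A α) ≤ lmin (sub A β) ∧
    lmin (sub A β) < ⊤) ∧ 0 ≤ lmin A

/-- `A` is (positive) stable: every eigenvalue has positive real part. -/
def IsStable {n : ℕ} (A : Matrix (Fin n) (Fin n) ℂ) : Prop :=
  ∀ z ∈ spectrum ℂ A, 0 < z.re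

/-- `c_j`: the mean of the principal minors of order `j`. -/
noncomputable def coef {n : ℕ} (A : Matrix (Fin n) (Fin n) ℂ) (j : ℕ) : ℂ :=
  ((n.choose j : ℕ) : ℂ)⁻¹ * ∑ α ∈ powersetCard j (univ : Finset (Fin n)), (sub A α).det

end Pool.Agent.Helper85.Arrow
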