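import Mathlib
import Pool.Agent.Helper85.Arrow.Basic
import Pool.Agent.Helper85.Arrow.Defs

/-!
The matrices `am n t e` are GKK tau-matrices.
-/

namespace Pool.Agent.Helper85.Arrow

open Matrix Finset Pool.Agent.Helper5.GKK
open scoped ComplexOrder

variable {n : ℕ} {t e : ℝ}

theorem mem_spec {m : Type*} [Fintype m] [DecidableEq m] (B : Matrix m m ℂ) (z : ℂ) :
    z ∈ spectrum ℂ B ↔ (B + (-z) • (1 : Matrix m m ℂ)).det = 0 := by
  rw [spectrum.mem_iff, Matrix.isUnit_iff_isUnit_det, isUnit_iff_ne_zero, not_not]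
  have : algebraMap ℂ (Matrix m m ℂ) z - B = -(B + (-z) • (1 : Matrix m m ℂ)) := by
    rw [Algebra.algebraMap_eq_smul_one, neg_smul]
    abel
  rw [this, det_neg]
  constructor
  · intro h
    rcases mul_eq_zero.mp h with h | h
    · exact absurd h (by simp)
    · exact h
  · intro h
    rw [h, mul_zero]

theorem amc_eq (n : ℕ) (t e : ℝ) : amc n t e = (am n t e).map Complex.ofRealHom := rfl

/-- spectrum of the principal submatrices -/
theorem spec_mem (S : Finset (Fin n)) (z : ℂ) (o : Fin n) (ho : o.val = 0) (hS : o ∈ S) :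
    z ∈ spectrum ℂ (sub (amc n t e) S) ↔
      t * (e - z) ^ (S.card - 1) = z * (1 - z) ^ (S.card - 1) := by
  rw [mem_spec, sub, amc_eq, det_sub_mem Complex.ofRealHom S (-z) o ho hS]
  simp only [Complex.ofRealHom_eq_coe]
  constructor
  · intro h
    linear_combination (exp := 1) h
  · intro h
    linear_combination (exp := 1) h

theorem spec_notMem (S : Finset (Fin n)) (z : ℂ) (hS : ∀ x ∈ S, x.val ≠ 0) (h0 : S.Nonempty) :
    z ∈ spectrum ℂ (sub (amc n t e) S) ↔ z = 1 := by
  rw [mem_spec, sub, amc_eq, det_sub_notMem Complex.ofRealHom S (-z) hS,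
    pow_eq_zero_iff (Finset.card_ne_zero.mpr h0)]
  constructor
  · intro h; linear_combination -h
  · intro h; linear_combination -h

/-- value of the principal minors -/
noncomputable def pv (t e : ℝ) (S : Finset (Fin n)) : ℝ :=
  if ∃ x ∈ S, x.val = 0 then t * e ^ (S.card - 1) else 1

theorem pm_eq (S : Finset (Fin n)) : pm (amc n t e) S = ((pv t e S : ℝ) : ℂ) := by
  unfold pv
  split_ifs with h
  · obtain ⟨o, hS, ho⟩ := h
    have h := det_sub_mem (t := t) (e := e) Complex.ofRealHom S 0 o ho hS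
    rw [zero_smul, add_zero, zero_mul, zero_add, zero_add] at h
    rw [pm, amc_eq, h]
    simp
  · push Not at h
    have h := det_sub_notMem (t := t) (e := e) Complex.ofRealHom S 0 h
    rw [zero_smul, add_zero, add_zero, one_pow] at h
    rw [pm, amc_eq, h]
    simp

theorem pv_pos (ht : 0 < t) (he : 0 < e) (S : Finset (Fin n)) : 0 < pv t e S := by
  unfold pv
  split_ifs
  · positivity
  · exact one_pos

theorem isGKK_am (ht : 0 < t) (he : 0 < e) (he1 : e ≤ 1) : IsGKK (amc n t e) := by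
  rw [isGKK_iff]
  refine ⟨fun S => ?_, fun K i j hi hj hij => ?_⟩
  · rw [pm_eq]
    exact_mod_cast pv_pos ht he S
  · unfold ap
    rw [pm_eq, pm_eq, pm_eq, pm_eq, ← Complex.ofReal_mul, ← Complex.ofReal_mul,
      ← Complex.ofReal_sub]
    have key : pv t e K * pv t e (insert i (insert j K)) ≤ pv t e (insert i K) * pv t e (insert j K) := by
      have ci : (insert i K).card = K.card + 1 := card_insert_of_notMem hi
      have cj : (insert j K).card = K.card + 1 := card_insert_of_notMem hj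
      have cij : (insert i (insert j K)).card = K.card + 2 := by
        rw [card_insert_of_notMem (by simp [hij, hi]), cj]
      unfold pv
      by_cases hK : ∃ x ∈ K, x.val = 0
      · have hK0 : K.card ≠ 0 := by
          obtain ⟨x, hx, _⟩ := hK
          exact Finset.card_ne_zero.mpr ⟨x, hx⟩
        have h1 : ∃ x ∈ insert i K, x.val = 0 := by
          obtain ⟨x, hx, h⟩ := hK; exact ⟨x, mem_insert_of_mem hx, h⟩
        have h2 : ∃ x ∈ insert j K, x.val = 0 := by
          obtain ⟨x, hx, h⟩ := hK; exact ⟨x, mem_insert_of_mem hx, h⟩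
        have h3 : ∃ x ∈ insert i (insert j K), x.val = 0 := by
          obtain ⟨x, hx, h⟩ := hK
          exact ⟨x, mem_insert_of_mem (mem_insert_of_mem hx), h⟩
        obtain ⟨k, hk⟩ := Nat.exists_eq_succ_of_ne_zero hK0
        rw [if_pos hK, if_pos h1, if_pos h2, if_pos h3, ci, cj, cij, hk]
        apply le_of_eq
        simp only [Nat.succ_eq_add_one, Nat.add_sub_cancel, show k + 1 + 2 - 1 = k + 2 by omega]
        ring
      · rw [if_neg hK, one_mul]
        by_cases hi0 : i.val = 0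
        · have hj0 : j.val ≠ 0 := fun h => hij (Fin.ext (by omega))
          have h1 : ∃ x ∈ insert i K, x.val = 0 := ⟨i, mem_insert_self _ _, hi0⟩
          have h2 : ¬ ∃ x ∈ insert j K, x.val = 0 := by
            rintro ⟨x, hx, h⟩
            rcases mem_insert.mp hx with rfl | hx
            · exact hj0 h
            · exact hK ⟨x, hx, h⟩
          have h3 : ∃ x ∈ insert i (insert j K), x.val = 0 := ⟨i, mem_insert_self _ _, hi0⟩
          rw [if_pos h1, if_neg h2, if_pos h3, ci, cij, mul_one]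
          exact mul_le_mul_of_nonneg_left (pow_le_pow_of_le_one he.le he1 (by omega)) ht.le
        · have h1 : ¬ ∃ x ∈ insert i K, x.val = 0 := by
            rintro ⟨x, hx, h⟩
            rcases mem_insert.mp hx with rfl | hx
            · exact hi0 h
            · exact hK ⟨x, hx, h⟩
          rw [if_neg h1, one_mul]
          by_cases hj0 : j.val = 0
          · have h2 : ∃ x ∈ insert j K, x.val = 0 := ⟨j, mem_insert_self _ _, hj0⟩
            have h3 : ∃ x ∈ insert i (insert j K), x.val = 0 :=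
              ⟨j, mem_insert_of_mem (mem_insert_self _ _), hj0⟩
            rw [if_pos h2, if_pos h3, cj, cij]
            exact mul_le_mul_of_nonneg_left (pow_le_pow_of_le_one he.le he1 (by omega)) ht.le
          · have h2 : ¬ ∃ x ∈ insert j K, x.val = 0 := by
              rintro ⟨x, hx, h⟩
              rcases mem_insert.mp hx with rfl | hx
              · exact hj0 h
              · exact hK ⟨x, hx, h⟩
            have h3 : ¬ ∃ x ∈ insert i (insert j K), x.val = 0 := by
              rintro ⟨x, hx, h⟩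
              rcases mem_insert.mp hx with rfl | hx
              · exact hi0 h
              · exact h2 ⟨x, hx, h⟩
            rw [if_neg h2, if_neg h3]
    exact_mod_cast sub_nonneg.mpr key

/-! ### the tau property -/

/-- the equation of the real eigenvalues of the principal submatrices that contain the first index -/
def Q (t e : ℝ) (k : ℕ) (x : ℝ) : Prop := t * (e - x) ^ k = x * (1 - x) ^ k

theorem real_spec_mem (S : Finset (Fin n)) (x : ℝ) (o : Fin n) (ho : o.val = 0) (hS : o ∈ S) :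
    (x : ℂ) ∈ spectrum ℂ (sub (amc n t e) S) ↔ Q t e (S.card - 1) x := by
  rw [spec_mem S x o ho hS, Q]
  norm_cast

theorem real_spec_notMem (S : Finset (Fin n)) (x : ℝ) (hS : ∀ x ∈ S, x.val ≠ 0)
    (h0 : S.Nonempty) :
    (x : ℂ) ∈ spectrum ℂ (sub (amc n t e) S) ↔ x = 1 := by
  rw [spec_notMem S x hS h0]
  norm_cast

theorem Q.pos (ht : 0 < t) (he : 0 < e) {k : ℕ} {x : ℝ} (h : Q t e k x) : 0 < x := by
  by_contra hx
  push Not at hx
  have h1 : 0 < t * (e - x) ^ k := mul_pos ht (pow_pos (by linarith) k)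
  have h2 : x * (1 - x) ^ k ≤ 0 := mul_nonpos_of_nonpos_of_nonneg hx (pow_nonneg (by linarith) k)
  rw [Q] at h
  linarith

/-- intermediate value theorem -/
theorem exists_Q (ht : 0 < t) (he : 0 < e) {k : ℕ} {x : ℝ} (hx : 0 ≤ x)
    (h : t * (e - x) ^ k ≤ x * (1 - x) ^ k) : ∃ y ≤ x, Q t e k y := by
  have hc : ContinuousOn (fun y : ℝ => y * (1 - y) ^ k - t * (e - y) ^ k) (Set.Icc 0 x) := by fun_prop
  have h0 : (0:ℝ) ∈ Set.Icc ((fun y : ℝ => y * (1 - y) ^ k - t * (e - y) ^ k) 0)
      ((fun y : ℝ => y * (1 - y) ^ k - t * (e - y) ^ k) x) := by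
    constructor
    · have := mul_pos ht (pow_pos he k)
      simp only [zero_mul, sub_zero, zero_sub]
      linarith
    · simp only
      linarith
  obtain ⟨y, hy, h0⟩ := intermediate_value_Icc hx hc h0
  exact ⟨y, hy.2, by rw [Q]; simp only at h0; linarith⟩

theorem exists_Q_pos (ht : 0 < t) (he : 0 < e) (he1 : e ≤ 1) {k : ℕ} (hk : 0 < k) :
    ∃ y ≤ e, Q t e k y := by
  refine exists_Q ht he he.le ?_
  rw [sub_self, zero_pow hk.ne', mul_zero]
  exact mul_nonneg he.le (pow_nonneg (by linarith) k)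

theorem exists_Q_mono (ht : 0 < t) (he : 0 < e) (he1 : e ≤ 1) {k' k : ℕ} (hk : k' ≤ k) {x : ℝ}
    (h : Q t e k' x) : ∃ y ≤ x, Q t e k y := by
  rcases Nat.eq_zero_or_pos k with rfl | hk0
  · obtain rfl : k' = 0 := by omega
    exact ⟨x, le_rfl, h⟩
  rcases le_or_gt e x with hx | hx
  · obtain ⟨y, hy, hq⟩ := exists_Q_pos ht he he1 hk0
    exact ⟨y, hy.trans hx, hq⟩
  · have hx0 := h.pos ht he
    refine exists_Q ht he hx0.le ?_
    obtain ⟨d, rfl⟩ := Nat.exists_eq_add_of_le hk
    rw [pow_add, pow_add, ← mul_assoc, ← mul_assoc, ← show t * (e - x) ^ k' = x * (1 - x) ^ k' from h]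
    exact mul_le_mul_of_nonneg_left (pow_le_pow_left₀ (by linarith) (by linarith) d)
      (mul_nonneg ht.le (pow_nonneg (by linarith) k'))

theorem lmin_le {m m' : Type*} [Fintype m] [DecidableEq m] [Fintype m'] [DecidableEq m']
    {B : Matrix m m ℂ} {C : Matrix m' m' ℂ}
    (h : ∀ x : ℝ, (x : ℂ) ∈ spectrum ℂ C → ∃ y ≤ x, (y : ℂ) ∈ spectrum ℂ B) :
    lmin B ≤ lmin C := by
  refine le_sInf ?_
  rintro _ ⟨x, hx, rfl⟩
  obtain ⟨y, hy, hB⟩ := h x hx
  have h1 : lmin B ≤ (y : EReal) := sInf_le ⟨y, hB, rfl⟩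
  exact h1.trans (EReal.coe_le_coe_iff.mpr hy)

theorem lmin_lt {m : Type*} [Fintype m] [DecidableEq m] {B : Matrix m m ℂ}
    {x : ℝ} (h : (x : ℂ) ∈ spectrum ℂ B) : lmin B < ⊤ := by
  have h1 : lmin B ≤ (x : EReal) := sInf_le ⟨x, h, rfl⟩
  exact h1.trans_lt (EReal.coe_lt_top x)

theorem spec_full {A : Matrix (Fin n) (Fin n) ℂ} (z : ℂ) :
    z ∈ spectrum ℂ A ↔ z ∈ spectrum ℂ (sub A univ) := by
  rw [mem_spec, mem_spec]
  have h2 : sub A univ + (-z) • (1 : Matrix (univ : Finset (Fin n)) (univ : Finset (Fin n)) ℂ)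
      = (A + (-z) • (1 : Matrix (Fin n) (Fin n) ℂ)).submatrix
        (Equiv.subtypeUnivEquiv (fun x : Fin n => mem_univ x))
        (Equiv.subtypeUnivEquiv (fun x : Fin n => mem_univ x)) := by
    ext a b
    simp only [sub, Matrix.add_apply, Matrix.smul_apply, submatrix_apply, one_apply,
      Equiv.subtypeUnivEquiv_apply, Subtype.ext_iff]
  rw [h2, det_submatrix_equiv_self]

theorem isTau_am (ht : 0 < t) (he : 0 < e) (he1 : e ≤ 1) (hn : 0 < n) : IsTau (amc n t e) := by
  have ho : (⟨0, hn⟩ : Fin n).val = 0 := rfl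
  have hno : ∀ S : Finset (Fin n), (⟨0, hn⟩ : Fin n) ∉ S → ∀ y ∈ S, y.val ≠ 0 :=
    fun S hS y hy h => hS (by rwa [show (⟨0, hn⟩ : Fin n) = y from Fin.ext h.symm])
  refine ⟨fun α β hβ hs => ⟨?_, ?_⟩, ?_⟩
  · refine lmin_le fun x hx => ?_
    by_cases h1 : (⟨0, hn⟩ : Fin n) ∈ α
    · have hs' := card_le_card hs
      simp only [real_spec_mem α _ _ ho h1]
      by_cases h2 : (⟨0, hn⟩ : Fin n) ∈ β
      · rw [real_spec_mem β _ _ ho h2] at hx
        exact exists_Q_mono ht he he1 (by omega) hx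
      · rw [real_spec_notMem β x (hno β h2) hβ] at hx
        rw [hx]
        have hlt : β.card < α.card := card_lt_card ⟨hs, fun h => h2 (h h1)⟩
        have hpos := hβ.card_pos
        obtain ⟨y, hy, hq⟩ := exists_Q_pos ht he he1 (k := α.card - 1) (by omega)
        exact ⟨y, hy.trans he1, hq⟩
    · have h2 : (⟨0, hn⟩ : Fin n) ∉ β := fun h => h1 (hs h)
      refine ⟨x, le_rfl, ?_⟩
      rw [real_spec_notMem β x (hno β h2) hβ] at hx
      rw [real_spec_notMem α x (hno α h1) (hβ.mono hs)]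
      exact hx
  · by_cases h2 : (⟨0, hn⟩ : Fin n) ∈ β
    · obtain ⟨y, _, hy⟩ := exists_Q_mono ht he he1 (Nat.zero_le (β.card - 1)) (x := t) (by simp [Q])
      exact lmin_lt ((real_spec_mem β y _ ho h2).mpr hy)
    · refine lmin_lt ((real_spec_notMem β 1 (hno β h2) hβ).mpr rfl)
  · refine le_sInf ?_
    rintro _ ⟨x, hx, rfl⟩
    rw [Set.mem_ofPred_eq, spec_full, real_spec_mem univ x _ ho (mem_univ _)] at hx
    exact EReal.coe_nonneg.mpr (hx.pos ht he).le

/-! ### the coefficients -/

theorem sum_pv {m k : ℕ} (t e : ℝ) :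
    ∑ S ∈ powersetCard (k + 1) (univ : Finset (Fin (m + 1))), pv t e S
      = (m.choose (k + 1) : ℝ) + (m.choose k : ℝ) * (t * e ^ k) := by
  have h1 : ∀ S ∈ powersetCard (k + 1) (univ : Finset (Fin (m + 1))),
      pv t e S = 1 + if (0 : Fin (m + 1)) ∈ S then t * e ^ k - 1 else 0 := by
    intro S hS
    have hc := (mem_powersetCard.mp hS).2
    unfold pv
    have : (∃ x ∈ S, x.val = 0) ↔ (0 : Fin (m + 1)) ∈ S := by
      constructor
      · rintro ⟨x, hx, h⟩
        rwa [show x = 0 from Fin.ext h] at hx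
      · intro h; exact ⟨0, h, rfl⟩
    by_cases h : (0 : Fin (m + 1)) ∈ S
    · rw [if_pos (this.mpr h), if_pos h, hc, Nat.add_sub_cancel]; ring
    · rw [if_neg (fun h' => h (this.mp h')), if_neg h, add_zero]
  rw [sum_congr rfl h1, sum_add_distrib, sum_const, card_powersetCard, card_univ, Fintype.card_fin,
    ← sum_filter, sum_const]
  have h2 : ((powersetCard (k + 1) (univ : Finset (Fin (m + 1)))).filter
      (fun S => (0 : Fin (m + 1)) ∈ S)).card = m.choose k := by
    have h3 : ((powersetCard (k + 1) (univ : Finset (Fin (m + 1)))).filter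
        (fun S => ¬ (0 : Fin (m + 1)) ∈ S)) = powersetCard (k + 1) (univ.erase 0) := by
      ext S
      simp only [mem_filter, mem_powersetCard, subset_univ, true_and, subset_erase]
      tauto
    have h4 := card_filter_add_card_filter_not (s := powersetCard (k + 1) (univ : Finset (Fin (m + 1))))
      (fun S => (0 : Fin (m + 1)) ∈ S)
    rw [h3, card_powersetCard, card_powersetCard, card_erase_of_mem (mem_univ _), card_univ,
      Fintype.card_fin, Nat.add_sub_cancel, Nat.choose_succ_succ, Nat.succ_eq_add_one] at h4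
    omega
  rw [h2, nsmul_eq_mul, nsmul_eq_mul, Nat.choose_succ_succ]
  push_cast
  ring

theorem coef_am {m k : ℕ} (hk : k ≤ m) (t e : ℝ) :
    coef (amc (m + 1) t e) (k + 1)
      = ((1 - (k + 1) / (m + 1) + (k + 1) / (m + 1) * (t * e ^ k) : ℝ) : ℂ) := by
  have h1 : ∀ S : Finset (Fin (m + 1)), (sub (amc (m + 1) t e) S).det = ((pv t e S : ℝ) : ℂ) :=
    fun S => pm_eq S
  unfold coef
  simp only [h1]
  rw [← Complex.ofReal_sum, sum_pv]
  have hc : ((m + 1).choose (k + 1) : ℝ) ≠ 0 := by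
    exact_mod_cast (Nat.choose_pos (by omega)).ne'
  have hm : ((m : ℝ) + 1) ≠ 0 := by positivity
  have h2 : ((m + 1 : ℕ) : ℝ) * (m.choose k : ℝ) = ((m + 1).choose (k + 1) : ℝ) * ((k + 1 : ℕ) : ℝ) := by
    exact_mod_cast Nat.add_one_mul_choose_eq m k
  have h3 : ((m + 1).choose (k + 1) : ℝ) = m.choose k + m.choose (k + 1) := by
    exact_mod_cast Nat.choose_succ_succ m k
  push_cast at h2
  rw [← Complex.ofReal_natCast, ← Complex.ofReal_inv, ← Complex.ofReal_mul]
  congr 1
  rw [inv_mul_eq_iff_eq_mul₀ hc]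
  have h4 : (m.choose k : ℝ) = ((m + 1).choose (k + 1) : ℝ) * (k + 1) / (m + 1) := by
    rw [eq_div_iff hm]; linarith
  have h5 : (m.choose (k + 1) : ℝ) = ((m + 1).choose (k + 1) : ℝ) - m.choose k := by linarith
  rw [h5, h4]
  field_simp

theorem coef_zero {A : Matrix (Fin n) (Fin n) ℂ} : coef A 0 = 1 := by
  unfold coef
  rw [powersetCard_zero, sum_singleton]
  simp [sub]

end Pool.Agent.Helper85.Arrow
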