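import Mathlib
import Pool.Agent.Helper85.Arrow.Props

/-!
An explicit family of strict GKK matrices of every order, with principal minors in closed form.
-/

namespace Pool.Agent.Helper85.Arrow

open Matrix Finset Pool.Agent.Helper5.GKK
open scoped ComplexOrder

section det

variable {R : Type*} [CommRing R]

/-- the determinant is an affine function of a number added to all entries -/
theorem det_affine {m : Type*} [Fintype m] [DecidableEq m] (M : Matrix m m R) :
    ∃ κ : R, ∀ s : R, (M + of fun _ _ => s).det = M.det + s * κ := by
  let P : R → Matrix (Unit ⊕ m) (Unit ⊕ m) R :=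
    fun s => fromBlocks 1 (of fun _ _ => -s) (of fun _ _ => 1) M
  have h1 : ∀ s, (P s).det = (M + of fun _ _ => s).det := by
    intro s
    show (fromBlocks 1 (of fun _ _ => -s) (of fun _ _ => 1) M).det = _
    rw [det_fromBlocks_one₁₁]
    congr 1
    ext i j
    simp [mul_apply, sub_eq_add_neg]
  have h2 : ∀ s, P s = (P 0).updateRow (Sum.inl ())
      (P 0 (Sum.inl ()) + s • (Sum.elim (fun _ => 0) (fun _ => -1) : Unit ⊕ m → R)) := by
    intro s
    ext i j
    rcases i with i | i
    · rw [show (Sum.inl i : Unit ⊕ m) = Sum.inl () from rfl, updateRow_self]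
      rcases j with j | j <;> simp [P]
    · rw [updateRow_ne (by simp)]
      rcases j with j | j <;> simp [P]
  refine ⟨((P 0).updateRow (Sum.inl ()) (Sum.elim (fun _ => 0) (fun _ => -1))).det, fun s => ?_⟩
  rw [← h1, h2 s, det_updateRow_add, det_updateRow_smul, updateRow_eq_self, h1 0]
  congr 2
  ext i j
  simp

variable {m : Type*} [Fintype m] [LinearOrder m]

/-- determinant of a matrix with constant diagonal `d`, entries `a` below and `b` above -/
theorem det_two_const (d a b : R) (M : Matrix m m R)
    (hM : ∀ i j, M i j = if i = j then d else if j < i then a else b) :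
    (a - b) * M.det = a * (d - b) ^ Fintype.card m - b * (d - a) ^ Fintype.card m := by
  obtain ⟨κ, hκ⟩ := det_affine M
  have h1 : (M + of fun _ _ => -b).det = (d - b) ^ Fintype.card m := by
    rw [det_of_isLowerTriangular]
    · rw [Finset.prod_congr rfl (g := fun _ => d - b) fun i _ => by
        rw [Matrix.add_apply, hM, if_pos rfl, of_apply, sub_eq_add_neg]]
      simp
    · intro i j hij
      have hij : i < j := by simpa using hij
      rw [Matrix.add_apply, hM, if_neg hij.ne, if_neg hij.le.not_gt, of_apply, add_neg_cancel]
  have h2 : (M + of fun _ _ => -a).det = (d - a) ^ Fintype.card m := by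
    rw [det_of_isUpperTriangular]
    · rw [Finset.prod_congr rfl (g := fun _ => d - a) fun i _ => by
        rw [Matrix.add_apply, hM, if_pos rfl, of_apply, sub_eq_add_neg]]
      simp
    · intro i j hij
      have hij : j < i := by simpa using hij
      rw [Matrix.add_apply, hM, if_neg hij.ne', if_pos hij, of_apply, add_neg_cancel]
  rw [hκ] at h1 h2
  rw [← h1, ← h2]
  ring

theorem det_two_const' (inst : DecidableEq m) (d a b : R) (M : Matrix m m R)
    (hM : ∀ i j, M i j = if i = j then d else if j < i then a else b) :
    (a - b) * M.det = a * (d - b) ^ Fintype.card m - b * (d - a) ^ Fintype.card m := by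
  have hi : inst = LinearOrder.toDecidableEq := Subsingleton.elim _ _
  subst hi
  exact det_two_const d a b M hM

/-- the same for the matrix with an additional first row and column -/
theorem det_bordered (o : m) (ho : ∀ x, o ≤ x) (t r a b : R) (M : Matrix m m R)
    (hM : ∀ i j, M i j = if i = j then (if i = o then t else 1) else if i = o then -(t * r)
      else if j = o then -1 else if j < i then a else b) :
    (a - b) * M.det = t * ((r - b) * (1 - a) ^ (Fintype.card m - 1)
      - (r - a) * (1 - b) ^ (Fintype.card m - 1)) := by
  set v : m → R := fun j => if j = o then 1 else -r with hv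
  have h0 : M = M.updateRow o (t • v) := by
    ext i j
    by_cases hi : i = o
    · subst hi
      rw [updateRow_self, Pi.smul_apply, hv, hM]
      by_cases hj : j = i
      · subst hj; simp
      · simp [hj, Ne.symm hj]
    · rw [updateRow_ne hi]
  set N : Matrix m m R := of fun i j => M.updateRow o v i j + (if i = o then 0 else 1) * v j with hN
  have hd : N.det = (M.updateRow o v).det := by
    refine det_eq_of_forall_row_eq_smul_add_const (fun i => if i = o then 0 else 1) o (by simp)
      fun i j => ?_
    rw [hN, of_apply, updateRow_self]
  have hblock := Matrix.twoBlockTriangular_det N (fun i => i = o) (by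
    intro i hi j hj
    rw [hN, of_apply, updateRow_ne hi, hM, if_neg (fun h => hi (h.trans hj)), if_neg hi, if_pos hj,
      if_neg hi, hv]
    simp [hj])
  have hone : ∀ (i1 : DecidableEq {a : m // a = o}) (i2 : Fintype {a : m // a = o}),
      @Matrix.det _ i1 i2 _ _ (toSquareBlockProp N fun i => i = o) = 1 := by
    intro i1 i2
    rw [det_eq_elem_of_subsingleton _ (⟨o, rfl⟩ : {a : m // a = o}), toSquareBlockProp_def,
      of_apply, hN, of_apply, updateRow_self]
    simp [hv]
  have hrest := fun i1 : DecidableEq {i : m // ¬ i = o} =>
    det_two_const' i1 (1 - r) (a - r) (b - r) (toSquareBlockProp N fun i => ¬ i = o) (by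
    intro i j
    rw [toSquareBlockProp_def, of_apply, hN, of_apply, updateRow_ne i.2, hM, if_neg i.2, if_neg j.2,
      if_neg i.2, hv]
    simp only [if_neg i.2, if_neg j.2, Subtype.ext_iff, ← Subtype.coe_lt_coe]
    by_cases h1 : (i : m) = j
    · rw [if_pos h1, if_pos h1]; ring
    · rw [if_neg h1, if_neg h1]
      by_cases h2 : (j : m) < i
      · rw [if_pos h2, if_pos h2]; ring
      · rw [if_neg h2, if_neg h2]; ring)
  have hcard : Fintype.card {i : m // ¬ i = o} = Fintype.card m - 1 := by
    rw [Fintype.card_subtype_compl, Fintype.card_subtype_eq]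
  simp only [hcard] at hrest
  rw [h0, det_updateRow_smul, ← hd, hblock, hone, one_mul]
  have e1 : 1 - r - (b - r) = 1 - b := by ring
  have e2 : 1 - r - (a - r) = 1 - a := by ring
  simp only [e1, e2, show a - r - (b - r) = a - b by ring] at hrest
  linear_combination t * hrest _

theorem det_bordered' (inst : DecidableEq m) (o : m) (ho : ∀ x, o ≤ x) (t r a b : R)
    (M : Matrix m m R)
    (hM : ∀ i j, M i j = if i = j then (if i = o then t else 1) else if i = o then -(t * r)
      else if j = o then -1 else if j < i then a else b) :
    (a - b) * M.det = t * ((r - b) * (1 - a) ^ (Fintype.card m - 1)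
      - (r - a) * (1 - b) ^ (Fintype.card m - 1)) := by
  have hi : inst = LinearOrder.toDecidableEq := Subsingleton.elim _ _
  subst hi
  exact det_bordered o ho t r a b M hM

end det

end Pool.Agent.Helper85.Arrow
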