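import Mathlib
import Pool.Agent.Helper85.Arrow.Strict

/-!
The strict GKK matrices `bm n t r a b`, and `am n t e` as their limits.
-/

namespace Pool.Agent.Helper85.Arrow

open Matrix Finset Pool.Agent.Helper5.GKK Filter Topology
open scoped ComplexOrder

/-- the matrix of order `n` with first row `(t, -tr, …)`, first column `(t, -1, …)`, `1` on the
rest of the diagonal, `a` elsewhere below and `b` elsewhere above the diagonal -/
noncomputable def bm (n : ℕ) (t r a b : ℝ) : Matrix (Fin n) (Fin n) ℝ :=
  of fun i j => if i = j then (if i.val = 0 then t else 1) else if i.val = 0 then -(t * r)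
    else if j.val = 0 then -1 else if j < i then a else b

noncomputable def bmc (n : ℕ) (t r a b : ℝ) : Matrix (Fin n) (Fin n) ℂ :=
  (bm n t r a b).map (fun x : ℝ => (x : ℂ))

theorem bmc_eq (n : ℕ) (t r a b : ℝ) : bmc n t r a b = (bm n t r a b).map Complex.ofRealHom := rfl

theorem am_eq_bm (n : ℕ) (t e : ℝ) : am n t e = bm n t (1 - e) (1 - e) 0 := rfl

/-- values of the principal minors without and with the first index -/
noncomputable def phT (a b : ℝ) (k : ℕ) : ℝ := (a * (1 - b) ^ k - b * (1 - a) ^ k) / (a - b)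
noncomputable def phR (r a b : ℝ) (k : ℕ) : ℝ :=
  ((r - b) * (1 - a) ^ k - (r - a) * (1 - b) ^ k) / (a - b)

noncomputable def bv {n : ℕ} (t r a b : ℝ) (S : Finset (Fin n)) : ℝ :=
  if ∃ x ∈ S, x.val = 0 then t * phR r a b (S.card - 1) else phT a b S.card

variable {n : ℕ} {t r a b : ℝ}

theorem pm_bmc (hab : a ≠ b) (S : Finset (Fin n)) :
    pm (bmc n t r a b) S = ((bv t r a b S : ℝ) : ℂ) := by
  have h0 : pm (bmc n t r a b) S = (((bm n t r a b).submatrix (Subtype.val : S → Fin n) Subtype.val).det : ℝ) := by
    have := (Complex.ofRealHom.map_det ((bm n t r a b).submatrix (Subtype.val : S → Fin n) Subtype.val)).symm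
    exact this
  have hab' : a - b ≠ 0 := sub_ne_zero.mpr hab
  rw [h0]
  congr 1
  unfold bv
  split_ifs with h
  · obtain ⟨o, hS, ho⟩ := h
    have hoa : ∀ x : S, x.val.val = 0 ↔ x = ⟨o, hS⟩ := by
      intro x
      rw [Subtype.ext_iff, Fin.ext_iff, ho]
    have := det_bordered' inferInstance (⟨o, hS⟩ : S)
      (fun x => Subtype.coe_le_coe.mp (Fin.le_def.mpr (by rw [ho]; exact Nat.zero_le _))) t r a b
      ((bm n t r a b).submatrix (Subtype.val : S → Fin n) Subtype.val) (by
        intro i j
        rw [submatrix_apply, bm, of_apply]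
        simp only [hoa, Subtype.coe_inj, Subtype.coe_lt_coe])
    rw [Fintype.card_coe] at this
    rw [phR, ← mul_div_assoc, eq_div_iff hab', mul_comm _ (a - b)]
    exact this
  · push Not at h
    have := det_two_const' inferInstance 1 a b
      ((bm n t r a b).submatrix (Subtype.val : S → Fin n) Subtype.val) (by
        intro i j
        rw [submatrix_apply, bm, of_apply, if_neg (h i i.2), if_neg (h i i.2), if_neg (h j j.2)]
        simp only [Subtype.coe_inj, Subtype.coe_lt_coe])
    rw [Fintype.card_coe] at this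
    rw [phT, eq_div_iff hab', mul_comm _ (a - b)]
    exact this

theorem phT_id (hab : a ≠ b) (k : ℕ) :
    phT a b (k + 1) ^ 2 - phT a b k * phT a b (k + 2) = a * b * ((1 - a) * (1 - b)) ^ k := by
  have hab' : a - b ≠ 0 := sub_ne_zero.mpr hab
  unfold phT
  rw [mul_pow]
  field_simp
  ring

theorem phR_id (hab : a ≠ b) (k : ℕ) :
    phR r a b (k + 1) ^ 2 - phR r a b k * phR r a b (k + 2)
      = (r - a) * (r - b) * ((1 - a) * (1 - b)) ^ k := by
  have hab' : a - b ≠ 0 := sub_ne_zero.mpr hab
  unfold phR
  rw [mul_pow]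
  field_simp
  ring

theorem ph_id (hab : a ≠ b) (k : ℕ) :
    phR r a b k * phT a b (k + 1) - phT a b k * phR r a b (k + 1)
      = r * ((1 - a) * (1 - b)) ^ k := by
  have hab' : a - b ≠ 0 := sub_ne_zero.mpr hab
  unfold phR phT
  rw [mul_pow]
  field_simp
  ring

theorem phT_pos (hb : 0 < b) (hab : b < a) (ha : a < 1) (k : ℕ) : 0 < phT a b k := by
  unfold phT
  apply div_pos _ (by linarith)
  have h1 : (1 - a) ^ k ≤ (1 - b) ^ k := pow_le_pow_left₀ (by linarith) (by linarith) k
  have h2 : 0 < (1 - b) ^ k := pow_pos (by linarith) k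
  have h3 : b * (1 - a) ^ k ≤ b * (1 - b) ^ k := mul_le_mul_of_nonneg_left h1 hb.le
  nlinarith

theorem phR_pos (hab : b < a) (har : a < r) (hr : r < 1) {m : ℕ}
    (h : (r - a) * (1 - b) ^ m < (r - b) * (1 - a) ^ m) {k : ℕ} (hk : k ≤ m) : 0 < phR r a b k := by
  unfold phR
  apply div_pos _ (by linarith)
  obtain ⟨d, rfl⟩ := Nat.exists_eq_add_of_le hk
  have h1 : (1 - a) ^ d ≤ (1 - b) ^ d := pow_le_pow_left₀ (by linarith) (by linarith) d
  have h2 : 0 < (1 - b) ^ d := pow_pos (by linarith) d
  have h3 : 0 < (1 - a) ^ k := pow_pos (by linarith) k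
  have h4 : (r - a) * (1 - b) ^ k * (1 - b) ^ d < (r - b) * (1 - a) ^ k * (1 - b) ^ d := by
    calc (r - a) * (1 - b) ^ k * (1 - b) ^ d = (r - a) * (1 - b) ^ (k + d) := by ring
      _ < (r - b) * (1 - a) ^ (k + d) := h
      _ = (r - b) * (1 - a) ^ k * (1 - a) ^ d := by ring
      _ ≤ (r - b) * (1 - a) ^ k * (1 - b) ^ d :=
          mul_le_mul_of_nonneg_left h1 (mul_nonneg (by linarith) h3.le)
  have := lt_of_mul_lt_mul_right h4 h2.le
  linarith

/-- the matrices `bm n t r a b` are strict GKK -/
theorem isStrictGKK_bm (ht : 0 < t) (hb : 0 < b) (hab : b < a) (har : a < r) (hr : r < 1)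
    (h : (r - a) * (1 - b) ^ (n - 1) < (r - b) * (1 - a) ^ (n - 1)) :
    IsStrictGKK (bmc n t r a b) := by
  have hne : a ≠ b := hab.ne'
  rw [isStrictGKK_iff]
  have hcard : ∀ S : Finset (Fin n), S.card ≤ n := fun S => by
    have := card_le_univ S
    rwa [Fintype.card_fin] at this
  have hAB : 0 < (1 - a) * (1 - b) := mul_pos (by linarith) (by linarith)
  refine ⟨fun S => ?_, fun K i j hi hj hij => ?_⟩
  · rw [pm_bmc hne]
    have : 0 < bv t r a b S := by
      unfold bv
      split_ifs
      · exact mul_pos ht (phR_pos hab har hr h (by have := hcard S; omega))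
      · exact phT_pos hb hab (by linarith) _
    exact_mod_cast this
  · unfold ap
    rw [pm_bmc hne, pm_bmc hne, pm_bmc hne, pm_bmc hne, ← Complex.ofReal_mul, ← Complex.ofReal_mul,
      ← Complex.ofReal_sub]
    have key : 0 < bv t r a b (insert i K) * bv t r a b (insert j K)
        - bv t r a b K * bv t r a b (insert i (insert j K)) := by
      have ci : (insert i K).card = K.card + 1 := card_insert_of_notMem hi
      have cj : (insert j K).card = K.card + 1 := card_insert_of_notMem hj
      have cij : (insert i (insert j K)).card = K.card + 2 := by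
        rw [card_insert_of_notMem (by simp [hij, hi]), cj]
      unfold bv
      by_cases hK : ∃ x ∈ K, x.val = 0
      · have hK0 : K.card ≠ 0 := by
          obtain ⟨x, hx, _⟩ := hK
          exact Finset.card_ne_zero.mpr ⟨x, hx⟩
        have h1 : ∃ x ∈ insert i K, x.val = 0 := by
          obtain ⟨x, hx, h⟩ := hK; exact ⟨x, mem_insert_of_mem hx, h⟩
        have h2 : ∃ x ∈ insert j K, x.val = 0 := by
          obtain ⟨x, hx, h⟩ := hK; exact ⟨x, mem_insert_of_mem hx, h⟩
        have h3 : ∃ x ∈ insert i (insert j K), x.val = 0 := by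
          obtain ⟨x, hx, h⟩ := hK
          exact ⟨x, mem_insert_of_mem (mem_insert_of_mem hx), h⟩
        obtain ⟨k, hk⟩ := Nat.exists_eq_succ_of_ne_zero hK0
        rw [if_pos hK, if_pos h1, if_pos h2, if_pos h3, ci, cj, cij, hk]
        simp only [Nat.succ_eq_add_one, Nat.add_sub_cancel, show k + 1 + 2 - 1 = k + 2 by omega]
        have h4 : t * phR r a b (k + 1) * (t * phR r a b (k + 1)) - t * phR r a b k * (t * phR r a b (k + 2))
            = t ^ 2 * ((r - a) * (r - b) * ((1 - a) * (1 - b)) ^ k) := by
          rw [← phR_id hne]; ring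
        rw [h4]
        exact mul_pos (pow_pos ht 2) (mul_pos (mul_pos (by linarith) (by linarith)) (pow_pos hAB k))
      · rw [if_neg hK]
        by_cases hi0 : i.val = 0
        · have hj0 : j.val ≠ 0 := fun h => hij (Fin.ext (by omega))
          have h1 : ∃ x ∈ insert i K, x.val = 0 := ⟨i, mem_insert_self _ _, hi0⟩
          have h2 : ¬ ∃ x ∈ insert j K, x.val = 0 := by
            rintro ⟨x, hx, h⟩
            rcases mem_insert.mp hx with rfl | hx
            · exact hj0 h
            · exact hK ⟨x, hx, h⟩
          have h3 : ∃ x ∈ insert i (insert j K), x.val = 0 := ⟨i, mem_insert_self _ _, hi0⟩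
          rw [if_pos h1, if_neg h2, if_pos h3, ci, cj, cij]
          simp only [Nat.add_sub_cancel, show K.card + 2 - 1 = K.card + 1 by omega]
          have h4 : t * phR r a b K.card * phT a b (K.card + 1) - phT a b K.card * (t * phR r a b (K.card + 1))
              = t * (r * ((1 - a) * (1 - b)) ^ K.card) := by
            rw [← ph_id hne]; ring
          rw [h4]
          exact mul_pos ht (mul_pos (by linarith) (pow_pos hAB _))
        · have h1 : ¬ ∃ x ∈ insert i K, x.val = 0 := by
            rintro ⟨x, hx, h⟩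
            rcases mem_insert.mp hx with rfl | hx
            · exact hi0 h
            · exact hK ⟨x, hx, h⟩
          rw [if_neg h1]
          by_cases hj0 : j.val = 0
          · have h2 : ∃ x ∈ insert j K, x.val = 0 := ⟨j, mem_insert_self _ _, hj0⟩
            have h3 : ∃ x ∈ insert i (insert j K), x.val = 0 :=
              ⟨j, mem_insert_of_mem (mem_insert_self _ _), hj0⟩
            rw [if_pos h2, if_pos h3, ci, cj, cij]
            simp only [Nat.add_sub_cancel, show K.card + 2 - 1 = K.card + 1 by omega]
            have h4 : phT a b (K.card + 1) * (t * phR r a b K.card) - phT a b K.card * (t * phR r a b (K.card + 1))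
                = t * (r * ((1 - a) * (1 - b)) ^ K.card) := by
              rw [← ph_id hne]; ring
            rw [h4]
            exact mul_pos ht (mul_pos (by linarith) (pow_pos hAB _))
          · have h2 : ¬ ∃ x ∈ insert j K, x.val = 0 := by
              rintro ⟨x, hx, h⟩
              rcases mem_insert.mp hx with rfl | hx
              · exact hj0 h
              · exact hK ⟨x, hx, h⟩
            have h3 : ¬ ∃ x ∈ insert i (insert j K), x.val = 0 := by
              rintro ⟨x, hx, h⟩
              rcases mem_insert.mp hx with rfl | hx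
              · exact hi0 h
              · exact h2 ⟨x, hx, h⟩
            rw [if_neg h2, if_neg h3, ci, cj, cij, ← pow_two, phT_id hne]
            exact mul_pos (mul_pos (by linarith) hb) (pow_pos hAB _)
    exact_mod_cast key

end Pool.Agent.Helper85.Arrow
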