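import Mathlib

/-!
The Routh-Hurwitz criterion for polynomials of degree four.
-/

namespace Pool.Agent.Helper85.Arrow

theorem rh4 {a b c d : ℝ} (ha : 0 < a) (hb : 0 < b) (hc : 0 < c) (hd : 0 < d)
    (h : c ^ 2 + a ^ 2 * d < a * b * c) {z : ℂ} (hz : 0 ≤ z.re) :
    z ^ 4 + a * z ^ 3 + b * z ^ 2 + c * z + d ≠ 0 := by
  intro h0
  obtain ⟨x, y⟩ := z
  have hx : 0 ≤ x := hz
  have hre : x ^ 4 - 6 * x ^ 2 * y ^ 2 + y ^ 4 + a * (x ^ 3 - 3 * x * y ^ 2) + b * (x ^ 2 - y ^ 2)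
      + c * x + d = 0 := by
    have := congrArg Complex.re h0
    simp only [pow_succ, pow_zero, one_mul, Complex.add_re, Complex.mul_re, Complex.mul_im,
      Complex.ofReal_re, Complex.ofReal_im, Complex.zero_re] at this
    linear_combination this
  have him : y * (4 * x ^ 3 - 4 * x * y ^ 2 + a * (3 * x ^ 2 - y ^ 2) + 2 * b * x + c) = 0 := by
    have := congrArg Complex.im h0
    simp only [pow_succ, pow_zero, one_mul, Complex.add_im, Complex.mul_re, Complex.mul_im,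
      Complex.ofReal_re, Complex.ofReal_im, Complex.zero_im] at this
    linear_combination this
  rcases mul_eq_zero.mp him with hy | hy
  · rw [hy] at hre
    have h1 : 0 ≤ x ^ 4 := by positivity
    have h2 : 0 ≤ a * x ^ 3 := by positivity
    have h3 : 0 ≤ b * x ^ 2 := by positivity
    have h4 : 0 ≤ c * x := by positivity
    nlinarith
  · have h4d : 4 * d < b ^ 2 := by
      have h1 : a ^ 2 * (4 * d) < a ^ 2 * b ^ 2 := by nlinarith [sq_nonneg (a * b - 2 * c)]
      exact lt_of_mul_lt_mul_left h1 (by positivity)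
    have hR : c ^ 2 - a * b * c + a ^ 2 * d + x * (8 * a * d - 2 * a * b ^ 2 - 2 * a ^ 2 * c)
        + x ^ 2 * (16 * d - 4 * b ^ 2 - 4 * a * c - 8 * a ^ 2 * b)
        - x ^ 3 * (32 * a * b + 8 * a ^ 3) - x ^ 4 * (32 * b + 48 * a ^ 2) - 96 * a * x ^ 5
        - 64 * x ^ 6 = 0 := by
      linear_combination (4 * x + a) ^ 2 * hre
        - ((4 * x + a) * (y ^ 2) + (4 * x ^ 3 + 3 * a * x ^ 2 + 2 * b * x + c)
            - (4 * x + a) * (6 * x ^ 2 + 3 * a * x + b)) * (-1) * hy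
    have e1 : x * (8 * a * d - 2 * a * b ^ 2 - 2 * a ^ 2 * c) ≤ 0 := by
      apply mul_nonpos_of_nonneg_of_nonpos hx
      nlinarith [mul_pos ha hc, mul_pos (mul_pos ha ha) hc]
    have e2 : x ^ 2 * (16 * d - 4 * b ^ 2 - 4 * a * c - 8 * a ^ 2 * b) ≤ 0 := by
      apply mul_nonpos_of_nonneg_of_nonpos (by positivity)
      nlinarith [mul_pos ha hc, mul_pos (mul_pos ha ha) hb]
    have e3 : 0 ≤ x ^ 3 * (32 * a * b + 8 * a ^ 3) := by positivity
    have e4 : 0 ≤ x ^ 4 * (32 * b + 48 * a ^ 2) := by positivity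
    have e5 : 0 ≤ 96 * a * x ^ 5 := by positivity
    have e6 : 0 ≤ 64 * x ^ 6 := by positivity
    linarith

end Pool.Agent.Helper85.Arrow
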