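import Mathlib
import Pool.Agent.Helper85.Arrow.Props
import Pool.Agent.Helper85.Arrow.Hurwitz

/-!
GKK matrices of order at most four are stable.
-/

namespace Pool.Agent.Helper85.Arrow

open Matrix Finset Pool.Agent.Helper5.GKK
open scoped ComplexOrder

theorem rh3 {a b c : ℝ} (ha : 0 < a) (hb : 0 < b) (hc : 0 < c)
    (h : c < a * b) {z : ℂ} (hz : 0 ≤ z.re) :
    z ^ 3 + a * z ^ 2 + b * z + c ≠ 0 := by
  intro h0
  refine rh4 (a := a + 1) (b := a + b) (c := b + c) (d := c) (by linarith) (by linarith)
    (by linarith) hc ?_ hz ?_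
  · have : (a + 1) * (a + b) * (b + c) - ((b + c) ^ 2 + (a + 1) ^ 2 * c)
        = (a * b - c) * (a + b + c + 1) := by ring
    have h1 : 0 < (a * b - c) * (a + b + c + 1) := mul_pos (by linarith) (by linarith)
    linarith
  · push_cast
    linear_combination (z + 1) * h0

theorem rh2 {a b : ℝ} (ha : 0 < a) (hb : 0 < b) {z : ℂ} (hz : 0 ≤ z.re) :
    z ^ 2 + a * z + b ≠ 0 := by
  intro h0
  refine rh3 (a := a + 1) (b := a + b) (c := b) (by linarith) (by linarith) hb ?_ hz ?_
  · nlinarith [mul_pos ha hb, mul_pos ha ha]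
  · push_cast
    linear_combination (z + 1) * h0

section

variable {n : ℕ} {A : Matrix (Fin n) (Fin n) ℂ}

/-- real values of the principal minors of a GKK matrix -/
theorem exists_F (h : IsGKK A) : ∃ F : Finset (Fin n) → ℝ, (∀ S, pm A S = (F S : ℂ)) ∧
    (∀ S, 0 < F S) ∧ F ∅ = 1 ∧ ∀ K i j, i ∉ K → j ∉ K → i ≠ j →
      F K * F (insert i (insert j K)) ≤ F (insert i K) * F (insert j K) := by
  rw [isGKK_iff] at h
  have hpm : ∀ S, pm A S = (((pm A S).re : ℝ) : ℂ) := by
    intro S
    obtain ⟨_, h2⟩ := Complex.pos_iff.mp (h.1 S)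
    apply Complex.ext
    · simp
    · simp [← h2]
  refine ⟨fun S => (pm A S).re, hpm, fun S => (Complex.pos_iff.mp (h.1 S)).1, ?_, ?_⟩
  · have : pm A ∅ = 1 := by unfold pm; exact det_isEmpty
    show (pm A ∅).re = 1
    rw [this]; rfl
  · intro K i j hi hj hij
    have h3 := h.2 K i j hi hj hij
    unfold ap at h3
    rw [hpm, hpm (insert j K), hpm K, hpm (insert i (insert j K)), ← Complex.ofReal_mul,
      ← Complex.ofReal_mul, ← Complex.ofReal_sub] at h3
    have h4 : (0:ℝ) ≤ (pm A (insert i K)).re * (pm A (insert j K)).re -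
        (pm A K).re * (pm A (insert i (insert j K))).re := by exact_mod_cast h3
    linarith

theorem tri {F : Finset (Fin n) → ℝ} (hF : ∀ S, 0 < F S)
    (hL : ∀ K i j, i ∉ K → j ∉ K → i ≠ j →
      F K * F (insert i (insert j K)) ≤ F (insert i K) * F (insert j K))
    (K : Finset (Fin n)) (i j k : Fin n) (hi : i ∉ K) (hj : j ∉ K) (hk : k ∉ K) (hij : i ≠ j)
    (hik : i ≠ k) (hjk : j ≠ k) :
    F K * F (insert i (insert j (insert k K))) ≤ F (insert i K) * F (insert j (insert k K)) := by
  have h1 := hL K i j hi hj hij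
  have h2 := hL (insert j K) i k (by simp [hij, hi]) (by simp [hjk.symm, hk]) hik
  rw [Finset.insert_comm k j K] at h2
  have p1 := hF (insert j K)
  have p2 := hF K
  have p3 := hF (insert j (insert k K))
  have h3 : F K * (F (insert j K) * F (insert i (insert j (insert k K))))
      ≤ F K * (F (insert i (insert j K)) * F (insert j (insert k K))) :=
    mul_le_mul_of_nonneg_left h2 p2.le
  have h4 : F K * F (insert i (insert j K)) * F (insert j (insert k K))
      ≤ F (insert i K) * F (insert j K) * F (insert j (insert k K)) :=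
    mul_le_mul_of_nonneg_right h1 p3.le
  have h5 : F (insert j K) * (F K * F (insert i (insert j (insert k K))))
      ≤ F (insert j K) * (F (insert i K) * F (insert j (insert k K))) := by
    nlinarith
  exact le_of_mul_le_mul_left h5 p1

/-- an eigenvalue is a root of the polynomial whose coefficients are the sums of principal minors -/
theorem root_of_spec {z : ℂ} (hz : z ∈ spectrum ℂ A) :
    ∑ k ∈ range (n + 1), (-z) ^ (n - k) * ∑ S ∈ (univ : Finset (Fin n)).powersetCard k, pm A S = 0 := by
  have h1 : A.charpoly.eval z = 0 := by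
    rw [Matrix.eval_charpoly]
    rw [mem_spec] at hz
    have : scalar (Fin n) z - A = -(A + (-z) • (1 : Matrix (Fin n) (Fin n) ℂ)) := by
      rw [scalar_apply, ← smul_one_eq_diagonal, neg_smul]
      abel
    rw [this, det_neg, hz, mul_zero]
  rw [Polynomial.eval_eq_sum_range, Matrix.charpoly_natDegree_eq_dim, Fintype.card_fin,
    ← Finset.sum_range_reflect] at h1
  have h2 : ∀ k ∈ range (n + 1), A.charpoly.coeff (n + 1 - 1 - k) * z ^ (n + 1 - 1 - k)
      = (-1) ^ n * ((-z) ^ (n - k) * ∑ S ∈ (univ : Finset (Fin n)).powersetCard k, pm A S) := by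
    intro k hk
    have hk' : k ≤ n := Nat.lt_succ_iff.mp (mem_range.mp hk)
    have h3 := Matrix.charpoly_coeff_eq_sum_minors A k (by simpa using hk')
    rw [Fintype.card_fin] at h3
    rw [Nat.add_sub_cancel, h3]
    have h4 : (-1 : ℂ) ^ n * (-z) ^ (n - k) = (-1) ^ k * z ^ (n - k) := by
      rw [neg_pow z, ← mul_assoc, ← pow_add]
      obtain ⟨d, rfl⟩ := Nat.exists_eq_add_of_le hk'
      rw [show k + d + (k + d - k) = k + 2 * d by omega, pow_add, pow_mul]
      simp
    calc _ = (-1) ^ k * z ^ (n - k) * ∑ S ∈ (univ : Finset (Fin n)).powersetCard k, pm A S := by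
          unfold pm; ring
      _ = _ := by rw [← h4]; ring
  rw [sum_congr rfl h2, ← mul_sum] at h1
  exact (mul_eq_zero.mp h1).resolve_left (by simp)

end

theorem four_stable (A : Matrix (Fin 4) (Fin 4) ℂ) (h : IsGKK A) : IsStable A := by
  intro z hz
  obtain ⟨F, hA, hF, h0, hL⟩ := exists_F h
  have hr := root_of_spec hz
  simp only [hA, ← Complex.ofReal_sum] at hr
  rw [Finset.sum_range_succ, Finset.sum_range_succ, Finset.sum_range_succ, Finset.sum_range_succ,
    Finset.sum_range_succ, Finset.sum_range_zero] at hr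
  set E0 := ∑ S ∈ (univ : Finset (Fin 4)).powersetCard 0, F S with hE0
  set E1 := ∑ S ∈ (univ : Finset (Fin 4)).powersetCard 1, F S with hE1
  set E2 := ∑ S ∈ (univ : Finset (Fin 4)).powersetCard 2, F S with hE2
  set E3 := ∑ S ∈ (univ : Finset (Fin 4)).powersetCard 3, F S with hE3
  set E4 := ∑ S ∈ (univ : Finset (Fin 4)).powersetCard 4, F S with hE4
  have s0 : (univ : Finset (Fin 4)).powersetCard 0 = {∅} := by decide
  have s1 : (univ : Finset (Fin 4)).powersetCard 1 = {{0}, {1}, {2}, {3}} := by decide
  have s2 : (univ : Finset (Fin 4)).powersetCard 2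
      = {{0, 1}, {0, 2}, {0, 3}, {1, 2}, {1, 3}, {2, 3}} := by decide
  have s3 : (univ : Finset (Fin 4)).powersetCard 3
      = {{0, 1, 2}, {0, 1, 3}, {0, 2, 3}, {1, 2, 3}} := by decide
  have s4 : (univ : Finset (Fin 4)).powersetCard 4 = {univ} := by decide
  have v0 : E0 = 1 := by rw [hE0, s0, sum_singleton, h0]
  have v1 : E1 = F {0} + F {1} + F {2} + F {3} := by
    rw [hE1, s1, sum_insert (by decide), sum_insert (by decide), sum_insert (by decide),
      sum_singleton]
    ring
  have v2 : E2 = F {0, 1} + F {0, 2} + F {0, 3} + F {1, 2} + F {1, 3} + F {2, 3} := by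
    rw [hE2, s2, sum_insert (by decide), sum_insert (by decide), sum_insert (by decide),
      sum_insert (by decide), sum_insert (by decide), sum_singleton]
    ring
  have v3 : E3 = F {0, 1, 2} + F {0, 1, 3} + F {0, 2, 3} + F {1, 2, 3} := by
    rw [hE3, s3, sum_insert (by decide), sum_insert (by decide), sum_insert (by decide),
      sum_singleton]
    ring
  have v4 : E4 = F univ := by rw [hE4, s4, sum_singleton]
  have t : ∀ (i j k : Fin 4) (X Y : Finset (Fin 4)), i ≠ j → i ≠ k → j ≠ k →
      insert i (insert j (insert k ∅)) = X → insert j (insert k ∅) = Y → F X ≤ F {i} * F Y := by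
    rintro i j k _ _ h1 h2 h3 rfl rfl
    have := tri hF hL ∅ i j k (by simp) (by simp) (by simp) h1 h2 h3
    rw [h0, one_mul] at this
    exact this
  have u : ∀ (i j k l : Fin 4) (Y W : Finset (Fin 4)), i ≠ j → i ≠ k → i ≠ l → j ≠ k → j ≠ l →
      k ≠ l → insert j {i} = Y → insert k (insert l {i}) = W →
      insert j (insert k (insert l {i})) = univ → F {i} * F univ ≤ F Y * F W := by
    rintro i j k l _ _ h1 h2 h3 h4 h5 h6 rfl rfl h7
    have := tri hF hL {i} j k l (by simp [h1.symm]) (by simp [h2.symm]) (by simp [h3.symm]) h4 h5 h6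
    rw [h7] at this
    exact this
  have q1 : 3 * E3 ≤ E1 * E2 := by
    rw [v1, v2, v3]
    have a1 := t 0 1 2 {0, 1, 2} {1, 2} (by decide) (by decide) (by decide) (by decide) (by decide)
    have a2 := t 1 0 2 {0, 1, 2} {0, 2} (by decide) (by decide) (by decide) (by decide) (by decide)
    have a3 := t 2 0 1 {0, 1, 2} {0, 1} (by decide) (by decide) (by decide) (by decide) (by decide)
    have a4 := t 0 1 3 {0, 1, 3} {1, 3} (by decide) (by decide) (by decide) (by decide) (by decide)
    have a5 := t 1 0 3 {0, 1, 3} {0, 3} (by decide) (by decide) (by decide) (by decide) (by decide)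
    have a6 := t 3 0 1 {0, 1, 3} {0, 1} (by decide) (by decide) (by decide) (by decide) (by decide)
    have a7 := t 0 2 3 {0, 2, 3} {2, 3} (by decide) (by decide) (by decide) (by decide) (by decide)
    have a8 := t 2 0 3 {0, 2, 3} {0, 3} (by decide) (by decide) (by decide) (by decide) (by decide)
    have a9 := t 3 0 2 {0, 2, 3} {0, 2} (by decide) (by decide) (by decide) (by decide) (by decide)
    have a10 := t 1 2 3 {1, 2, 3} {2, 3} (by decide) (by decide) (by decide) (by decide) (by decide)
    have a11 := t 2 1 3 {1, 2, 3} {1, 3} (by decide) (by decide) (by decide) (by decide) (by decide)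
    have a12 := t 3 1 2 {1, 2, 3} {1, 2} (by decide) (by decide) (by decide) (by decide) (by decide)
    have p : ∀ X Y, 0 < F X * F Y := fun X Y => mul_pos (hF X) (hF Y)
    have b1 := p {0} {0, 1}
    have b2 := p {0} {0, 2}
    have b3 := p {0} {0, 3}
    have b4 := p {1} {0, 1}
    have b5 := p {1} {1, 2}
    have b6 := p {1} {1, 3}
    have b7 := p {2} {0, 2}
    have b8 := p {2} {1, 2}
    have b9 := p {2} {2, 3}
    have b10 := p {3} {0, 3}
    have b11 := p {3} {1, 3}
    have b12 := p {3} {2, 3}
    linarith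
  have q2 : 3 * (E1 * E4) ≤ E2 * E3 := by
    rw [v1, v2, v3, v4]
    have a1 := u 0 1 2 3 {0, 1} {0, 2, 3} (by decide) (by decide) (by decide) (by decide)
      (by decide) (by decide) (by decide) (by decide) (by decide)
    have a2 := u 0 2 1 3 {0, 2} {0, 1, 3} (by decide) (by decide) (by decide) (by decide)
      (by decide) (by decide) (by decide) (by decide) (by decide)
    have a3 := u 0 3 1 2 {0, 3} {0, 1, 2} (by decide) (by decide) (by decide) (by decide)
      (by decide) (by decide) (by decide) (by decide) (by decide)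
    have a4 := u 1 0 2 3 {0, 1} {1, 2, 3} (by decide) (by decide) (by decide) (by decide)
      (by decide) (by decide) (by decide) (by decide) (by decide)
    have a5 := u 1 2 0 3 {1, 2} {0, 1, 3} (by decide) (by decide) (by decide) (by decide)
      (by decide) (by decide) (by decide) (by decide) (by decide)
    have a6 := u 1 3 0 2 {1, 3} {0, 1, 2} (by decide) (by decide) (by decide) (by decide)
      (by decide) (by decide) (by decide) (by decide) (by decide)
    have a7 := u 2 0 1 3 {0, 2} {1, 2, 3} (by decide) (by decide) (by decide) (by decide)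
      (by decide) (by decide) (by decide) (by decide) (by decide)
    have a8 := u 2 1 0 3 {1, 2} {0, 2, 3} (by decide) (by decide) (by decide) (by decide)
      (by decide) (by decide) (by decide) (by decide) (by decide)
    have a9 := u 2 3 0 1 {2, 3} {0, 1, 2} (by decide) (by decide) (by decide) (by decide)
      (by decide) (by decide) (by decide) (by decide) (by decide)
    have a10 := u 3 0 1 2 {0, 3} {1, 2, 3} (by decide) (by decide) (by decide) (by decide)
      (by decide) (by decide) (by decide) (by decide) (by decide)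
    have a11 := u 3 1 0 2 {1, 3} {0, 2, 3} (by decide) (by decide) (by decide) (by decide)
      (by decide) (by decide) (by decide) (by decide) (by decide)
    have a12 := u 3 2 0 1 {2, 3} {0, 1, 3} (by decide) (by decide) (by decide) (by decide)
      (by decide) (by decide) (by decide) (by decide) (by decide)
    have p : ∀ X Y, 0 < F X * F Y := fun X Y => mul_pos (hF X) (hF Y)
    have b1 := p {0, 1} {0, 1, 2}
    have b2 := p {0, 1} {0, 1, 3}
    have b3 := p {0, 2} {0, 1, 2}
    have b4 := p {0, 2} {0, 2, 3}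
    have b5 := p {0, 3} {0, 1, 3}
    have b6 := p {0, 3} {0, 2, 3}
    have b7 := p {1, 2} {0, 1, 2}
    have b8 := p {1, 2} {1, 2, 3}
    have b9 := p {1, 3} {0, 1, 3}
    have b10 := p {1, 3} {1, 2, 3}
    have b11 := p {2, 3} {0, 2, 3}
    have b12 := p {2, 3} {1, 2, 3}
    linarith
  have e1 : 0 < E1 := by rw [v1]; have := hF {0}; have := hF {1}; have := hF {2}; have := hF {3}; linarith
  have e2 : 0 < E2 := by
    rw [v2]; have := hF {0, 1}; have := hF {0, 2}; have := hF {0, 3}; have := hF {1, 2}
    have := hF {1, 3}; have := hF {2, 3}; linarith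
  have e3 : 0 < E3 := by
    rw [v3]; have := hF {0, 1, 2}; have := hF {0, 1, 3}; have := hF {0, 2, 3}
    have := hF {1, 2, 3}; linarith
  have e4 : 0 < E4 := by rw [v4]; exact hF _
  by_contra hc
  push Not at hc
  refine rh4 (a := E1) (b := E2) (c := E3) (d := E4) e1 e2 e3 e4 ?_ (z := -z) (by simpa using hc) ?_
  · have h1 := mul_le_mul_of_nonneg_right q1 e3.le
    have h2 := mul_le_mul_of_nonneg_left q2 e1.le
    have h3 : 0 < E1 * E2 * E3 := by positivity
    nlinarith
  · rw [v0] at hr
    push_cast at hr
    simp only [pow_zero, pow_one, mul_one, one_mul, zero_add] at hr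
    linear_combination hr

theorem three_stable (A : Matrix (Fin 3) (Fin 3) ℂ) (h : IsGKK A) : IsStable A := by
  intro z hz
  obtain ⟨F, hA, hF, h0, hL⟩ := exists_F h
  have hr := root_of_spec hz
  simp only [hA, ← Complex.ofReal_sum] at hr
  rw [Finset.sum_range_succ, Finset.sum_range_succ, Finset.sum_range_succ, Finset.sum_range_succ,
    Finset.sum_range_zero] at hr
  set E0 := ∑ S ∈ (univ : Finset (Fin 3)).powersetCard 0, F S with hE0
  set E1 := ∑ S ∈ (univ : Finset (Fin 3)).powersetCard 1, F S with hE1
  set E2 := ∑ S ∈ (univ : Finset (Fin 3)).powersetCard 2, F S with hE2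
  set E3 := ∑ S ∈ (univ : Finset (Fin 3)).powersetCard 3, F S with hE3
  have s0 : (univ : Finset (Fin 3)).powersetCard 0 = {∅} := by decide
  have s1 : (univ : Finset (Fin 3)).powersetCard 1 = {{0}, {1}, {2}} := by decide
  have s2 : (univ : Finset (Fin 3)).powersetCard 2 = {{0, 1}, {0, 2}, {1, 2}} := by decide
  have s3 : (univ : Finset (Fin 3)).powersetCard 3 = {{0, 1, 2}} := by decide
  have v0 : E0 = 1 := by rw [hE0, s0, sum_singleton, h0]
  have v1 : E1 = F {0} + F {1} + F {2} := by
    rw [hE1, s1, sum_insert (by decide), sum_insert (by decide), sum_singleton]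
    ring
  have v2 : E2 = F {0, 1} + F {0, 2} + F {1, 2} := by
    rw [hE2, s2, sum_insert (by decide), sum_insert (by decide), sum_singleton]
    ring
  have v3 : E3 = F {0, 1, 2} := by rw [hE3, s3, sum_singleton]
  have t : ∀ (i j k : Fin 3) (X Y : Finset (Fin 3)), i ≠ j → i ≠ k → j ≠ k →
      insert i (insert j (insert k ∅)) = X → insert j (insert k ∅) = Y → F X ≤ F {i} * F Y := by
    rintro i j k _ _ h1 h2 h3 rfl rfl
    have := tri hF hL ∅ i j k (by simp) (by simp) (by simp) h1 h2 h3
    rw [h0, one_mul] at this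
    exact this
  have q1 : E3 < E1 * E2 := by
    rw [v1, v2, v3]
    have a1 := t 0 1 2 {0, 1, 2} {1, 2} (by decide) (by decide) (by decide) (by decide) (by decide)
    have p : ∀ X Y, 0 < F X * F Y := fun X Y => mul_pos (hF X) (hF Y)
    have b1 := p {0} {0, 1}
    have b2 := p {0} {0, 2}
    have b4 := p {1} {0, 1}
    have b5 := p {1} {1, 2}
    have b6 := p {1} {0, 2}
    have b7 := p {2} {0, 2}
    have b8 := p {2} {1, 2}
    have b9 := p {2} {0, 1}
    linarith
  have e1 : 0 < E1 := by rw [v1]; have := hF {0}; have := hF {1}; have := hF {2}; linarith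
  have e2 : 0 < E2 := by
    rw [v2]; have := hF {0, 1}; have := hF {0, 2}; have := hF {1, 2}; linarith
  have e3 : 0 < E3 := by rw [v3]; exact hF _
  by_contra hc
  push Not at hc
  refine rh3 (a := E1) (b := E2) (c := E3) e1 e2 e3 q1 (z := -z) (by simpa using hc) ?_
  rw [v0] at hr
  push_cast at hr
  simp only [pow_zero, pow_one, mul_one, one_mul, zero_add] at hr
  linear_combination hr

theorem two_stable (A : Matrix (Fin 2) (Fin 2) ℂ) (h : IsGKK A) : IsStable A := by
  intro z hz
  obtain ⟨F, hA, hF, h0, hL⟩ := exists_F h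
  have hr := root_of_spec hz
  simp only [hA, ← Complex.ofReal_sum] at hr
  rw [Finset.sum_range_succ, Finset.sum_range_succ, Finset.sum_range_succ,
    Finset.sum_range_zero] at hr
  set E0 := ∑ S ∈ (univ : Finset (Fin 2)).powersetCard 0, F S with hE0
  set E1 := ∑ S ∈ (univ : Finset (Fin 2)).powersetCard 1, F S with hE1
  set E2 := ∑ S ∈ (univ : Finset (Fin 2)).powersetCard 2, F S with hE2
  have s0 : (univ : Finset (Fin 2)).powersetCard 0 = {∅} := by decide
  have s1 : (univ : Finset (Fin 2)).powersetCard 1 = {{0}, {1}} := by decide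
  have s2 : (univ : Finset (Fin 2)).powersetCard 2 = {{0, 1}} := by decide
  have v0 : E0 = 1 := by rw [hE0, s0, sum_singleton, h0]
  have v1 : E1 = F {0} + F {1} := by
    rw [hE1, s1, sum_insert (by decide), sum_singleton]
  have v2 : E2 = F {0, 1} := by rw [hE2, s2, sum_singleton]
  have e1 : 0 < E1 := by rw [v1]; have := hF {0}; have := hF {1}; linarith
  have e2 : 0 < E2 := by rw [v2]; exact hF _
  by_contra hc
  push Not at hc
  refine rh2 (a := E1) (b := E2) e1 e2 (z := -z) (by simpa using hc) ?_
  rw [v0] at hr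
  push_cast at hr
  simp only [pow_zero, pow_one, mul_one, one_mul, zero_add] at hr
  linear_combination hr

theorem one_stable (A : Matrix (Fin 1) (Fin 1) ℂ) (h : IsGKK A) : IsStable A := by
  intro z hz
  obtain ⟨F, hA, hF, h0, hL⟩ := exists_F h
  have hr := root_of_spec hz
  simp only [hA, ← Complex.ofReal_sum] at hr
  rw [Finset.sum_range_succ, Finset.sum_range_succ, Finset.sum_range_zero] at hr
  have s0 : (univ : Finset (Fin 1)).powersetCard 0 = {∅} := by decide
  have s1 : (univ : Finset (Fin 1)).powersetCard 1 = {{0}} := by decide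
  rw [s0, s1, sum_singleton, sum_singleton, h0] at hr
  push_cast at hr
  have h1 : z = (F {0} : ℂ) := by linear_combination (exp := 1) -hr
  rw [h1]
  exact_mod_cast hF _

/-- every GKK matrix of order at most four is stable -/
theorem le_four_stable {n : ℕ} (hn : n ≤ 4) (A : Matrix (Fin n) (Fin n) ℂ) (h : IsGKK A) :
    IsStable A := by
  interval_cases n
  · intro z hz
    rw [mem_spec, det_isEmpty] at hz
    exact absurd hz one_ne_zero
  · exact one_stable A h
  · exact two_stable A h
  · exact three_stable A h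
  · exact four_stable A h

end Pool.Agent.Helper85.Arrow
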