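import Mathlib
import Pool.Agent.Helper85.Arrow.Family

/-!
`am n t e` is a limit of strict GKK matrices; eigenvalues with negative real part pass from the
closure of a set of matrices to the set.
-/

namespace Pool.Agent.Helper85.Arrow

open Matrix Finset Pool.Agent.Helper5.GKK Filter Topology

/-- real matrices that are strict GKK (as complex matrices) -/
def StrictReal (n : ℕ) : Set (Matrix (Fin n) (Fin n) ℝ) :=
  {A | IsStrictGKK (A.map (fun x : ℝ => (x : ℂ)))}

theorem am_mem_closure_aux (n : ℕ) {t e : ℝ} (ht : 0 < t) (he : 0 < e) (he1 : e < 1) :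
    am n t e ∈ closure (StrictReal n) := by
  have hc : Tendsto (fun s : ℝ => bm n t (1 - e) (1 - e - s) s) (𝓝[>] 0) (𝓝 (am n t e)) := by
    have h1 : Continuous (fun s : ℝ => bm n t (1 - e) (1 - e - s) s) := by
      refine continuous_matrix fun i j => ?_
      simp only [bm, of_apply]
      split_ifs <;> fun_prop
    have h2 := h1.tendsto 0
    simp only [sub_zero] at h2
    exact h2.mono_left nhdsWithin_le_nhds
  refine mem_closure_of_tendsto hc ?_
  have e1 : ∀ᶠ s : ℝ in 𝓝[>] 0, 0 < s := self_mem_nhdsWithin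
  have e2 : ∀ᶠ s : ℝ in 𝓝[>] 0, s < 1 - e - s := by
    have : ∀ᶠ s : ℝ in 𝓝 0, s < 1 - e - s :=
      (continuous_id.continuousAt).eventually_lt (by fun_prop) (by simpa using he1)
    exact this.filter_mono nhdsWithin_le_nhds
  have e3 : ∀ᶠ s : ℝ in 𝓝[>] 0, (1 - e - (1 - e - s)) * (1 - s) ^ (n - 1)
      < (1 - e - s) * (1 - (1 - e - s)) ^ (n - 1) := by
    have : ∀ᶠ s : ℝ in 𝓝 0, (1 - e - (1 - e - s)) * (1 - s) ^ (n - 1)
        < (1 - e - s) * (1 - (1 - e - s)) ^ (n - 1) := by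
      refine ContinuousAt.eventually_lt (by fun_prop) (by fun_prop) ?_
      have := mul_pos (sub_pos.mpr he1) (pow_pos he (n - 1))
      simpa using this
    exact this.filter_mono nhdsWithin_le_nhds
  filter_upwards [e1, e2, e3] with s h1 h2 h3
  exact isStrictGKK_bm ht h1 h2 (by linarith) (by linarith) h3

theorem continuous_am (n : ℕ) (t : ℝ) : Continuous fun e : ℝ => am n t e := by
  refine continuous_matrix fun i j => ?_
  simp only [am, of_apply]
  split_ifs <;> fun_prop

theorem am_mem_closure (n : ℕ) {t e : ℝ} (ht : 0 < t) (he : 0 ≤ e) (he1 : e ≤ 1) :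
    am n t e ∈ closure (StrictReal n) := by
  have h1 : e ∈ closure (Set.Ioo (0:ℝ) 1) := by
    rw [closure_Ioo (by norm_num)]
    exact ⟨he, he1⟩
  have h2 := map_mem_closure (continuous_am n t) h1
    (t := closure (StrictReal n)) (fun s hs => am_mem_closure_aux n ht hs.1 hs.2)
  rwa [closure_closure] at h2

section mono

variable {n : ℕ}

theorem norm_prod_le (f g : ℂ → ℂ) (s : Multiset ℂ) (h : ∀ x ∈ s, ‖f x‖ ≤ ‖g x‖) :
    ‖(s.map f).prod‖ ≤ ‖(s.map g).prod‖ := by
  induction s using Multiset.induction_on with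
  | empty => simp
  | cons a s ih =>
    rw [Multiset.map_cons, Multiset.map_cons, Multiset.prod_cons, Multiset.prod_cons, norm_mul,
      norm_mul]
    exact mul_le_mul (h a (Multiset.mem_cons_self a s))
      (ih fun x hx => h x (Multiset.mem_cons_of_mem hx)) (norm_nonneg _) (norm_nonneg _)

/-- if all eigenvalues have nonnegative real part, `|det(B - z)|` decreases to the right in the
left half plane -/
theorem mono_of_spec (B : Matrix (Fin n) (Fin n) ℂ) (hB : ∀ z ∈ spectrum ℂ B, 0 ≤ z.re)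
    (z : ℂ) (h : ℝ) (hh : 0 ≤ h) (hz : z.re + h ≤ 0) :
    ‖B.charpoly.eval (z + h)‖ ≤ ‖B.charpoly.eval z‖ := by
  have hs : B.charpoly.Splits := IsAlgClosed.splits _
  rw [hs.eval_eq_prod_roots_of_monic (Matrix.charpoly_monic B),
    hs.eval_eq_prod_roots_of_monic (Matrix.charpoly_monic B)]
  refine norm_prod_le _ _ _ fun x hx => ?_
  have hx0 : 0 ≤ x.re := hB x (Matrix.mem_spectrum_of_isRoot_charpoly (Polynomial.isRoot_of_mem_roots hx))
  have h1 : ‖z + h - x‖ ^ 2 ≤ ‖z - x‖ ^ 2 := by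
    rw [Complex.sq_norm, Complex.sq_norm, Complex.normSq_apply, Complex.normSq_apply]
    simp only [Complex.sub_re, Complex.add_re, Complex.ofReal_re, Complex.sub_im, Complex.add_im,
      Complex.ofReal_im, add_zero]
    nlinarith
  exact (pow_le_pow_iff_left₀ (norm_nonneg _) (norm_nonneg _) two_ne_zero).mp h1

/-- an eigenvalue with negative real part in the closure gives one in the set -/
theorem exists_unstable {s : Set (Matrix (Fin n) (Fin n) ℝ)} {A : Matrix (Fin n) (Fin n) ℝ}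
    (hA : A ∈ closure s) {z : ℂ} (hz : z ∈ spectrum ℂ (A.map (fun x : ℝ => (x : ℂ))))
    (hz0 : z.re < 0) :
    ∃ B ∈ s, ∃ w ∈ spectrum ℂ (B.map (fun x : ℝ => (x : ℂ))), w.re < 0 := by
  by_contra hcon
  push Not at hcon
  have hcont : ∀ w : ℂ, Continuous fun B : Matrix (Fin n) (Fin n) ℝ =>
      ‖(B.map (fun x : ℝ => (x : ℂ))).charpoly.eval w‖ := by
    intro w
    simp only [Matrix.eval_charpoly]
    refine continuous_norm.comp (Continuous.matrix_det ?_)
    refine continuous_const.sub (continuous_matrix fun i j => ?_)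
    exact Complex.continuous_ofReal.comp (continuous_id.matrix_elem i j)
  have hmono : ∀ h : ℝ, 0 ≤ h → z.re + h ≤ 0 →
      ‖(A.map (fun x : ℝ => (x : ℂ))).charpoly.eval (z + h)‖
        ≤ ‖(A.map (fun x : ℝ => (x : ℂ))).charpoly.eval z‖ := by
    intro h hh hzh
    have hcl : IsClosed {B : Matrix (Fin n) (Fin n) ℝ |
        ‖(B.map (fun x : ℝ => (x : ℂ))).charpoly.eval (z + h)‖
          ≤ ‖(B.map (fun x : ℝ => (x : ℂ))).charpoly.eval z‖} :=
      isClosed_le (hcont _) (hcont _)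
    have hsub : s ⊆ {B : Matrix (Fin n) (Fin n) ℝ |
        ‖(B.map (fun x : ℝ => (x : ℂ))).charpoly.eval (z + h)‖
          ≤ ‖(B.map (fun x : ℝ => (x : ℂ))).charpoly.eval z‖} :=
      fun B hB => mono_of_spec _ (hcon B hB) z h hh hzh
    exact (closure_minimal hsub hcl) hA
  have hroot : (A.map (fun x : ℝ => (x : ℂ))).charpoly.eval z = 0 :=
    Matrix.mem_spectrum_iff_isRoot_charpoly.mp hz
  -- infinitely many eigenvalues
  have hinf : ((fun h : ℝ => z + (h : ℂ)) '' Set.Icc 0 (-z.re)).Infinite := by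
    refine Set.Infinite.image ?_ (Set.Icc_infinite (by linarith))
    intro x _ y _ hxy
    simpa using hxy
  refine hinf ((Matrix.finite_spectrum (A.map (fun x : ℝ => (x : ℂ)))).subset ?_)
  rintro _ ⟨h, hh, rfl⟩
  refine Matrix.mem_spectrum_of_isRoot_charpoly ?_
  have := hmono h hh.1 (by have := hh.2; linarith)
  rw [hroot, norm_zero] at this
  exact norm_le_zero_iff.mp this

end mono

/-- the eigenvalue of `am (m+1) t 0` -/
theorem exists_eigenvalue {m : ℕ} (hm : 4 ≤ m) :
    ∃ t : ℝ, 0 < t ∧ ∃ z ∈ spectrum ℂ ((am (m + 1) t 0).map (fun x : ℝ => (x : ℂ))), z.re < 0 := by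
  have hm' : (4:ℝ) ≤ m := by exact_mod_cast hm
  have hpi := Real.pi_pos
  set θ : ℝ := 5 * Real.pi / 12 with hθ
  set ψ : ℝ := 17 * Real.pi / (12 * m) with hψ
  have hψ0 : 0 < ψ := by positivity
  have hψθ : ψ < θ := by
    rw [hψ, hθ, div_lt_div_iff₀ (by positivity) (by norm_num)]
    nlinarith
  have hθ1 : 0 < θ := by positivity
  have hθ2 : θ < Real.pi / 2 := by rw [hθ]; linarith
  have hs1 : 0 < Real.sin θ := Real.sin_pos_of_pos_of_lt_pi hθ1 (by linarith)
  have hs2 : 0 < Real.sin ψ := Real.sin_pos_of_pos_of_lt_pi hψ0 (by linarith)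
  have hs3 : 0 < Real.sin (θ - ψ) := Real.sin_pos_of_pos_of_lt_pi (by linarith) (by linarith)
  have hc1 : 0 < Real.cos θ := Real.cos_pos_of_mem_Ioo ⟨by linarith, hθ2⟩
  set κ : ℝ := Real.sin θ / Real.sin (θ - ψ) with hκ
  set ρ : ℝ := Real.sin ψ / Real.sin (θ - ψ) with hρ
  have hκ0 : 0 < κ := div_pos hs1 hs3
  have hρ0 : 0 < ρ := div_pos hs2 hs3
  -- `κ e^{iψ} = 1 + ρ e^{iθ}`
  have hgeo : (κ : ℂ) * Complex.exp (ψ * Complex.I) = 1 + ρ * Complex.exp (θ * Complex.I) := by
    have hre : κ * Real.cos ψ = 1 + ρ * Real.cos θ := by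
      rw [hκ, hρ]
      field_simp
      rw [Real.sin_sub]
      ring
    have him : κ * Real.sin ψ = ρ * Real.sin θ := by
      rw [hκ, hρ]
      field_simp
    have hre' : (κ : ℂ) * Complex.cos ψ = 1 + ρ * Complex.cos θ := by exact_mod_cast hre
    have him' : (κ : ℂ) * Complex.sin ψ = ρ * Complex.sin θ := by exact_mod_cast him
    rw [Complex.exp_mul_I, Complex.exp_mul_I]
    linear_combination hre' + Complex.I * him'
  set E : ℂ := Complex.exp (θ * Complex.I) with hE
  have hE0 : E ≠ 0 := Complex.exp_ne_zero _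
  have hpow : Complex.exp (ψ * Complex.I) ^ m = -E := by
    rw [← Complex.exp_nat_mul]
    have : (m : ℂ) * (ψ * Complex.I) = θ * Complex.I + Real.pi * Complex.I := by
      have h1 : (m : ℝ) * ψ = θ + Real.pi := by
        rw [hψ, hθ]
        field_simp
        ring
      have h2 : (m : ℂ) * (ψ : ℂ) = (θ : ℂ) + (Real.pi : ℂ) := by exact_mod_cast h1
      linear_combination Complex.I * h2
    rw [this, Complex.exp_add, Complex.exp_pi_mul_I, mul_neg_one]
  have hρc : (ρ : ℂ) ≠ 0 := by exact_mod_cast hρ0.ne'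
  refine ⟨κ ^ m / ρ, by positivity, -(ρ * E)⁻¹, ?_, ?_⟩
  · have := spec_full (A := amc (m + 1) (κ ^ m / ρ) 0) (-(ρ * E)⁻¹)
    refine this.mpr ?_
    rw [spec_mem univ _ 0 rfl (mem_univ _), card_univ, Fintype.card_fin, Nat.add_sub_cancel]
    have h1 : (1 : ℂ) - -(ρ * E)⁻¹ = (κ : ℂ) * Complex.exp (ψ * Complex.I) * (ρ * E)⁻¹ := by
      rw [hgeo]
      field_simp
      ring
    rw [h1, mul_pow, mul_pow, hpow]
    push_cast
    rw [zero_sub, neg_neg]
    field_simp
  · have h1 : (ρ * E)⁻¹ = (ρ⁻¹ : ℝ) * Complex.exp (((-θ : ℝ) : ℂ) * Complex.I) := by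
      rw [mul_inv, hE, ← Complex.exp_neg]
      push_cast
      congr 2
      ring
    rw [h1, Complex.neg_re, Complex.re_ofReal_mul, Complex.exp_ofReal_mul_I_re, Real.cos_neg]
    have := mul_pos (inv_pos.mpr hρ0) hc1
    linarith

/-- for every `n ≥ 5` there is a real strict GKK matrix with an eigenvalue of negative real part -/
theorem exists_strict_unstable {n : ℕ} (hn : 5 ≤ n) :
    ∃ A : Matrix (Fin n) (Fin n) ℝ, IsStrictGKK (A.map (fun x : ℝ => (x : ℂ))) ∧
      ∃ z ∈ spectrum ℂ (A.map (fun x : ℝ => (x : ℂ))), z.re < 0 := by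
  obtain ⟨m, rfl⟩ : ∃ m, n = m + 1 := ⟨n - 1, by omega⟩
  obtain ⟨t, ht, z, hz, hz0⟩ := exists_eigenvalue (show 4 ≤ m by omega)
  exact exists_unstable (am_mem_closure (m + 1) ht le_rfl zero_le_one) hz hz0

end Pool.Agent.Helper85.Arrow
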